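import Mathlib
import Pool.Agent.Helper981.KP.Main

/-!
The process of the starting files (`Helper981/KP`) with real exponents: the point at which mass is
added and the test for adding mass are only approximately the exact ones.
-/

set_option autoImplicit false
open Finset

namespace Pool.Agent.HX6.KPR

open Pool.Agent.Helper981.KP

/-- logarithm of `∏_S (mass of the S-class of z)^{lam S}` -/
noncomputable def kapR (n : ℕ) (lam : Finset (Fin n) → ℝ) (s : List (ℕ × ℕ)) (z : ℕ) : ℝ :=
  ∑ S, lam S * Real.log (mS (lab n) s S (lab n S z))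

/-- one step: if the test `vl` says so, repeat the quantum `pk s`; otherwise take the next input -/
def stepG (pk : List (ℕ × ℕ) → ℕ × ℕ) (vl : List (ℕ × ℕ) → Bool) (f : ℕ → ℕ → ℕ)
    (σ : ℕ × List (ℕ × ℕ)) : ℕ × List (ℕ × ℕ) :=
  bif vl σ.2 then (σ.1, pk σ.2 :: σ.2) else (σ.1 + 1, inp f σ.1 ++ σ.2)

def runG (pk : List (ℕ × ℕ) → ℕ × ℕ) (vl : List (ℕ × ℕ) → Bool) (f : ℕ → ℕ → ℕ) (t : ℕ) :
    ℕ × List (ℕ × ℕ) :=
  Nat.rec (0, [(0, 0)]) (fun _ σ => stepG pk vl f σ) t

/-- `pk` finds an approximate maximum, `vl` compares it approximately with `θ` -/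
structure Good (n : ℕ) (lam : Finset (Fin n) → ℝ) (θ : ℝ) (pk : List (ℕ × ℕ) → ℕ × ℕ)
    (vl : List (ℕ × ℕ) → Bool) : Prop where
  mem : ∀ s, s ≠ [] → pk s ∈ s
  max : ∀ s, s ≠ [] → ∀ q ∈ s, kapR n lam s q.1 ≤ kapR n lam s (pk s).1 + 2
  viol : ∀ s, s ≠ [] → vl s = true → θ - 1 ≤ kapR n lam s (pk s).1
  nviol : ∀ s, s ≠ [] → vl s = false → kapR n lam s (pk s).1 ≤ θ + 1

section
variable (n : ℕ) (lam : Finset (Fin n) → ℝ) (θ : ℝ)

noncomputable def c0 : ℝ := 1 / (8 * ((∑ S, |lam S|) + 1))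

noncomputable def aR (S : Finset (Fin n)) : ℝ := c0 n lam * lam S

lemma sum_abs_nonneg : 0 ≤ ∑ S, |lam S| := Finset.sum_nonneg fun S _ => abs_nonneg _

lemma c0_pos : 0 < c0 n lam := by
  unfold c0
  have := sum_abs_nonneg n lam
  positivity

lemma c0_le : c0 n lam ≤ 1/8 := by
  unfold c0
  have := sum_abs_nonneg n lam
  rw [div_le_div_iff₀ (by positivity) (by norm_num)]
  linarith

lemma aR_neg : ∑ S, max (-aR n lam S) 0 ≤ 1/8 := by
  have hc := c0_pos n lam
  calc ∑ S, max (-aR n lam S) 0 ≤ ∑ S, c0 n lam * |lam S| := by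
        refine Finset.sum_le_sum fun S _ => ?_
        refine max_le ?_ (mul_nonneg hc.le (abs_nonneg _))
        unfold aR
        have := mul_le_mul_of_nonneg_left (neg_abs_le (lam S)) hc.le
        linarith
    _ = c0 n lam * ∑ S, |lam S| := by rw [Finset.mul_sum]
    _ ≤ 1/8 := by
        unfold c0
        have := sum_abs_nonneg n lam
        rw [div_mul_eq_mul_div, one_mul, div_le_div_iff₀ (by positivity) (by norm_num)]
        linarith

lemma psi_eqR (s : List (ℕ × ℕ)) (z : ℕ) :
    psi (lab n) Finset.univ (aR n lam) s z = Real.exp (c0 n lam * kapR n lam s z) := by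
  unfold psi kapR aR
  rw [Finset.mul_sum]
  congr 1
  refine Finset.sum_congr rfl fun S _ => ?_
  ring

/-- threshold for `psi` -/
noncomputable def ThR : ℝ := Real.exp (c0 n lam * (θ - 1))

/-- bound for the potential when the mass is at most 6 -/
noncomputable def BR : ℝ := Real.exp ((1 + ∑ S, max (aR n lam S) 0) * Real.log 6)

/-- validity in index form -/
def ValidR : Prop := ∀ (N : ℕ) (z : Fin N → ℕ) (Q : Fin N → ℝ), (∀ i, 0 < Q i) → ∑ i, Q i = 1 →
      0 ≤ ∑ S, lam S * Hf Q (fun i => lab n S (z i))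

lemma Psi_boundR (hv : ValidR n lam) (s : List (ℕ × ℕ)) (hs : s ≠ []) (ht : tot s ≤ 6) :
    Psi (lab n) Finset.univ (aR n lam) s ≤ BR n lam := by
  have h := Psi_le (lab n) Finset.univ (aR n lam) s hs
    (by
      intro N z Q hQ hQ1
      have := hv N z Q hQ hQ1
      have e : ∑ S, aR n lam S * Hf Q (fun i => lab n S (z i)) =
        c0 n lam * ∑ S, lam S * Hf Q (fun i => lab n S (z i)) := by
        rw [Finset.mul_sum]
        refine Finset.sum_congr rfl fun S _ => ?_
        unfold aR; ring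
      rw [e]
      exact mul_nonneg (c0_pos n lam).le this)
    (by linarith [aR_neg n lam])
  refine h.trans ?_
  unfold BR
  apply Real.exp_le_exp.2
  apply mul_le_mul_of_nonneg_left
  · exact Real.log_le_log (by positivity) (max_le ht (by norm_num))
  · have : 0 ≤ ∑ S, max (aR n lam S) 0 := Finset.sum_nonneg fun S _ => le_max_right _ _
    linarith

lemma half_le_log_two : (1/2 : ℝ) ≤ Real.log 2 := by
  have := Real.log_two_gt_d9
  linarith

/-- correction: repeating a quantum at an approximately maximal point raises the potential -/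
lemma Psi_correctR (a : Finset (Fin n) → ℝ) (s : List (ℕ × ℕ)) (q : ℕ × ℕ)
    (hq : q ∈ s) (hmax : ∀ q' ∈ s, psi (lab n) univ a s q'.1 ≤ 2 * psi (lab n) univ a s q.1)
    (hA : ∑ S, max (-a S) 0 ≤ 1/8) :
    Psi (lab n) univ a s + (1/2 : ℝ)^q.2 * psi (lab n) univ a s q.1 / 2 ≤
      Psi (lab n) univ a (q :: s) := by
  have hBpos0 : 0 < psi (lab n) univ a s q.1 := Real.exp_pos _
  have h := Psi_cons_ge (lab n) univ a s q (2 * psi (lab n) univ a s q.1) (by positivity) hmax
  set B := psi (lab n) univ a s q.1 with hB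
  set p := (1/2 : ℝ)^q.2 with hp
  have hp0 : 0 < p := half_pow_pos _
  have h2 := psi_cons_ge (lab n) univ a s q q hq
  have h3 : ∑ S, max (-a S) 0 *
      (if lab n S q.1 = lab n S q.1 then p / mS (lab n) s S (lab n S q.1) else 0) ≤ 1/8 := by
    refine le_trans (Finset.sum_le_sum fun S _ => ?_) hA
    rw [if_pos rfl]
    refine mul_le_of_le_one_right (le_max_right _ _) ?_
    rw [div_le_one (mS_pos_of_mem (lab n) s S q hq)]
    exact le_mS_of_mem (lab n) s S q hq
  have h4 : B * (7/8) ≤ psi (lab n) univ a (q :: s) q.1 := by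
    refine le_trans ?_ h2
    refine mul_le_mul_of_nonneg_left ?_ hBpos0.le
    linarith
  have h5 : (∑ S, max (-a S) 0) * p * (2 * B) ≤ 1/8 * p * (2 * B) := by
    have := mul_le_mul_of_nonneg_right hA (mul_pos hp0 (mul_pos two_pos hBpos0)).le
    linarith
  have h6 : p * (B * (7/8)) ≤ p * psi (lab n) univ a (q :: s) q.1 :=
    mul_le_mul_of_nonneg_left h4 hp0.le
  nlinarith [mul_pos hp0 hBpos0]

end

section runs
variable (pk : List (ℕ × ℕ) → ℕ × ℕ) (vl : List (ℕ × ℕ) → Bool) (f : ℕ → ℕ → ℕ)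

lemma runG_zero : runG pk vl f 0 = (0, [(0,0)]) := rfl
lemma runG_succ (t : ℕ) : runG pk vl f (t+1) = stepG pk vl f (runG pk vl f t) := rfl

/-- the invariant -/
structure InvG (n : ℕ) (lam : Finset (Fin n) → ℝ) (θ : ℝ) (σ : ℕ × List (ℕ × ℕ)) : Prop where
  ne : σ.2 ≠ []
  lo : Tp f σ.1 ≤ tot σ.2
  hi : tot σ.2 ≤ Tp f σ.1 + 2
  pot : ThR n lam θ * ((tot σ.2 - Tp f σ.1) / 2 - Tp f σ.1 / 4) ≤
    Psi (lab n) Finset.univ (aR n lam) σ.2

variable {n : ℕ} {lam : Finset (Fin n) → ℝ} {θ : ℝ}

lemma inv_runG (hg : Good n lam θ pk vl) (hv : ValidR n lam) (hTp : ∀ j, Tp f j ≤ 3)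
    (hTh : 4 * BR n lam < ThR n lam θ)
    (t : ℕ) : InvG f n lam θ (runG pk vl f t) := by
  have hThpos : 0 < ThR n lam θ := Real.exp_pos _
  have hc := c0_pos n lam
  have hc8 := c0_le n lam
  have hTp1 : ∀ j, 1 ≤ Tp f j := by
    intro j
    unfold Tp
    have : 0 ≤ ∑ i ∈ Finset.range j, tot (inp f i) := Finset.sum_nonneg fun i _ => tot_nonneg _
    linarith
  have hexp2 : ∀ x : ℝ, x ≤ 1/2 → Real.exp x ≤ 2 := by
    intro x hx
    rw [← Real.exp_log (show (0:ℝ) < 2 by norm_num)]
    exact Real.exp_le_exp.2 (hx.trans half_le_log_two)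
  induction t with
  | zero =>
    rw [runG_zero]
    refine ⟨by simp, by simp [Tp, tot], by simp [Tp, tot], ?_⟩
    have h1 : tot [((0:ℕ),(0:ℕ))] = 1 := by simp [tot]
    have h2 : Tp f 0 = 1 := by simp [Tp]
    simp only [h1, h2]
    have := Psi_nonneg (lab n) Finset.univ (aR n lam) [((0:ℕ),(0:ℕ))]
    nlinarith
  | succ t ih =>
    rw [runG_succ]
    set σ := runG pk vl f t with hσ
    obtain ⟨hne, hlo, hhi, hpot⟩ := ih
    have hmem := hg.mem σ.2 hne
    set q := pk σ.2 with hq
    have hpsimax : ∀ q' ∈ σ.2, psi (lab n) Finset.univ (aR n lam) σ.2 q'.1 ≤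
        2 * psi (lab n) Finset.univ (aR n lam) σ.2 q.1 := by
      intro q' hq'
      rw [psi_eqR, psi_eqR]
      have h1 := hg.max σ.2 hne q' hq'
      have h2 : c0 n lam * kapR n lam σ.2 q'.1 ≤ 2 * c0 n lam + c0 n lam * kapR n lam σ.2 q.1 := by
        nlinarith
      calc Real.exp (c0 n lam * kapR n lam σ.2 q'.1)
          ≤ Real.exp (2 * c0 n lam + c0 n lam * kapR n lam σ.2 q.1) := Real.exp_le_exp.2 h2
        _ = Real.exp (2 * c0 n lam) * Real.exp (c0 n lam * kapR n lam σ.2 q.1) := Real.exp_add _ _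
        _ ≤ _ := mul_le_mul_of_nonneg_right (hexp2 _ (by linarith)) (Real.exp_pos _).le
    unfold stepG
    cases hviol : vl σ.2 with
    | true =>
      rw [cond_true]
      have hk := hg.viol σ.2 hne hviol
      have hpsi : ThR n lam θ ≤ psi (lab n) Finset.univ (aR n lam) σ.2 q.1 := by
        rw [psi_eqR]
        exact Real.exp_le_exp.2 (mul_le_mul_of_nonneg_left hk hc.le)
      have hcor := Psi_correctR n (aR n lam) σ.2 q hmem hpsimax (aR_neg n lam)
      set p := (1/2 : ℝ)^q.2 with hp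
      have hp0 : 0 < p := half_pow_pos _
      have hp1 : p ≤ 1 := half_pow_le_one _
      have hpot' : ThR n lam θ * ((tot (q :: σ.2) - Tp f σ.1) / 2 - Tp f σ.1 / 4) ≤
          Psi (lab n) Finset.univ (aR n lam) (q :: σ.2) := by
        rw [tot_cons]
        have := mul_le_mul_of_nonneg_left hpsi hp0.le
        nlinarith
      refine ⟨by simp, ?_, ?_, hpot'⟩
      · simp only [tot_cons]; linarith
      · by_contra hcon
        push Not at hcon
        simp only at hcon
        have htot : tot (q :: σ.2) ≤ 6 := by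
          rw [tot_cons]; linarith [hTp σ.1]
        have hB := Psi_boundR n lam hv (q :: σ.2) (by simp) htot
        have h3 := hTp σ.1
        nlinarith
    | false =>
      rw [cond_false]
      have hk := hg.nviol σ.2 hne hviol
      have hpsi : ∀ q' ∈ σ.2, psi (lab n) Finset.univ (aR n lam) σ.2 q'.1 ≤ 2 * ThR n lam θ := by
        intro q' hq'
        have h1 := hg.max σ.2 hne q' hq'
        rw [psi_eqR]
        have h2 : c0 n lam * kapR n lam σ.2 q'.1 ≤ 4 * c0 n lam + c0 n lam * (θ - 1) := by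
          nlinarith
        calc Real.exp (c0 n lam * kapR n lam σ.2 q'.1)
            ≤ Real.exp (4 * c0 n lam + c0 n lam * (θ - 1)) := Real.exp_le_exp.2 h2
          _ = Real.exp (4 * c0 n lam) * ThR n lam θ := Real.exp_add _ _
          _ ≤ _ := mul_le_mul_of_nonneg_right (hexp2 _ (by linarith)) hThpos.le
      rcases inp_cases f σ.1 with h0 | ⟨x, hx⟩
      · have e : Tp f (σ.1 + 1) = Tp f σ.1 := by rw [Tp_succ, h0]; simp [tot]
        refine ⟨?_, ?_, ?_, ?_⟩
        · simpa [h0] using hne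
        · simpa [h0, e] using hlo
        · simpa [h0, e] using hhi
        · simpa [h0, e] using hpot
      · have e : Tp f (σ.1 + 1) = Tp f σ.1 + (1/2 : ℝ)^x.2 := by rw [Tp_succ, hx]; simp [tot]
        set p := (1/2 : ℝ)^x.2 with hp
        have hp0 : 0 < p := half_pow_pos _
        have hinc := Psi_cons_ge (lab n) Finset.univ (aR n lam) σ.2 x (2 * ThR n lam θ)
          (by positivity) hpsi
        rw [← hp] at hinc
        have hA := aR_neg n lam
        have h1 : (∑ S, max (-aR n lam S) 0) * p * (2 * ThR n lam θ) ≤ 1/8 * p * (2 * ThR n lam θ) := by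
          have := mul_le_mul_of_nonneg_right hA (mul_pos hp0 (mul_pos two_pos hThpos)).le
          linarith
        have h2 : 0 ≤ p * psi (lab n) Finset.univ (aR n lam) (x :: σ.2) x.1 :=
          mul_nonneg hp0.le (Real.exp_pos _).le
        refine ⟨by simp [hx], ?_, ?_, ?_⟩
        · simp only [hx, List.cons_append, List.nil_append, tot_cons, e]
          linarith
        · simp only [hx, List.cons_append, List.nil_append, tot_cons, e]
          linarith
        · simp only [hx, List.cons_append, List.nil_append, tot_cons, e]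
          rw [← hp]
          nlinarith

/-! ### progress -/

lemma suffix_stepG (σ : ℕ × List (ℕ × ℕ)) : σ.2 <:+ (stepG pk vl f σ).2 := by
  unfold stepG
  cases vl σ.2 with
  | true => exact List.suffix_cons _ _
  | false => exact List.suffix_append _ _

lemma suffix_runG {t t' : ℕ} (h : t ≤ t') : (runG pk vl f t).2 <:+ (runG pk vl f t').2 := by
  induction h with
  | refl => exact List.suffix_rfl
  | step _ ih => exact ih.trans (suffix_stepG pk vl f _)

lemma mS_runG_mono {J : Type*} (r : J → ℕ → ℕ) {t t' : ℕ} (h : t ≤ t') (S : J) (u : ℕ) :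
    mS r (runG pk vl f t).2 S u ≤ mS r (runG pk vl f t').2 S u := by
  obtain ⟨l, hl⟩ := suffix_runG pk vl f h
  rw [← hl, mS_append]
  linarith [mS_nonneg r l S u]

lemma fst_monoG {t t' : ℕ} (h : t ≤ t') : (runG pk vl f t).1 ≤ (runG pk vl f t').1 := by
  induction h with
  | refl => exact le_rfl
  | @step m _ ih =>
    refine ih.trans ?_
    rw [runG_succ]
    unfold stepG
    cases vl (runG pk vl f m).2 with
    | true => exact le_rfl
    | false => exact Nat.le_succ _

lemma inp_mem_runG (t : ℕ) : ∀ i < (runG pk vl f t).1, ∀ q ∈ inp f i, q ∈ (runG pk vl f t).2 := by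
  induction t with
  | zero => intro i hi; rw [runG_zero] at hi; simp at hi
  | succ t ih =>
    intro i hi q hq
    rw [runG_succ] at hi ⊢
    unfold stepG at hi ⊢
    cases h : vl (runG pk vl f t).2 with
    | true =>
      rw [h, cond_true] at hi
      rw [cond_true]
      exact List.mem_cons_of_mem _ (ih i hi q hq)
    | false =>
      rw [h, cond_false] at hi
      rw [cond_false]
      simp only at hi ⊢
      rcases Nat.lt_succ_iff_lt_or_eq.1 hi with h1 | h1
      · exact List.mem_append_right _ (ih i h1 q hq)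
      · rw [← h1]; exact List.mem_append_left _ hq

theorem exists_stableG (hg : Good n lam θ pk vl) (hv : ValidR n lam) (hTp : ∀ j, Tp f j ≤ 3)
    (hTh : 4 * BR n lam < ThR n lam θ) (t0 : ℕ) :
    ∃ t ≥ t0, vl (runG pk vl f t).2 = false := by
  by_contra hcon
  push Not at hcon
  have hns : ∀ t ≥ t0, vl (runG pk vl f t).2 = true := by
    intro t ht
    have := hcon t ht
    simpa using this
  have hinv := inv_runG pk vl f hg hv hTp hTh
  set E0 := Ex (runG pk vl f t0).2 with hE0
  have hall : ∀ m, (∀ q ∈ (runG pk vl f (t0+m)).2, q.2 ≤ E0) ∧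
      (m : ℝ) * (1/2 : ℝ)^E0 ≤ tot (runG pk vl f (t0+m)).2 := by
    intro m
    induction m with
    | zero =>
      refine ⟨fun q hq => le_Ex hq, ?_⟩
      simp [tot_nonneg]
    | succ m ih =>
      have e : t0 + (m+1) = (t0 + m) + 1 := by ring
      rw [e, runG_succ]
      have hmem := hg.mem _ (hinv (t0+m)).ne
      unfold stepG
      rw [hns (t0+m) (by omega), cond_true]
      refine ⟨?_, ?_⟩
      · intro q hq
        rcases List.mem_cons.1 hq with rfl | hq
        · exact ih.1 _ hmem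
        · exact ih.1 _ hq
      · simp only [tot_cons]
        have h2 := pow_le_pow_of_le_one (by norm_num : (0:ℝ) ≤ 1/2) (by norm_num) (ih.1 _ hmem)
        push_cast
        linarith [ih.2]
  obtain ⟨m, hm⟩ := exists_nat_gt (5 * 2^E0 : ℝ)
  have h1 := (hall m).2
  have h2 := (hinv (t0+m)).hi
  have h3 := hTp (runG pk vl f (t0+m)).1
  have h4 : (5:ℝ) < m * (1/2)^E0 := by
    have h5 : (5 * 2^E0 : ℝ) * (1/2)^E0 < m * (1/2)^E0 := mul_lt_mul_of_pos_right hm (by positivity)
    have h6 : (5 * 2^E0 : ℝ) * (1/2)^E0 = 5 := by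
      rw [mul_assoc, ← mul_pow]; norm_num
    linarith
  linarith

theorem exists_fst_geG (hg : Good n lam θ pk vl) (hv : ValidR n lam) (hTp : ∀ j, Tp f j ≤ 3)
    (hTh : 4 * BR n lam < ThR n lam θ) (j : ℕ) : ∃ t, j ≤ (runG pk vl f t).1 := by
  induction j with
  | zero => exact ⟨0, Nat.zero_le _⟩
  | succ j ih =>
    obtain ⟨t, ht⟩ := ih
    obtain ⟨t', ht', hst⟩ := exists_stableG pk vl f hg hv hTp hTh t
    refine ⟨t'+1, ?_⟩
    rw [runG_succ]
    unfold stepG
    rw [hst, cond_false]
    have := fst_monoG pk vl f ht'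
    simp only
    omega

lemma tot_runG_le (hg : Good n lam θ pk vl) (hv : ValidR n lam) (hTp : ∀ j, Tp f j ≤ 3)
    (hTh : 4 * BR n lam < ThR n lam θ) (t : ℕ) : tot (runG pk vl f t).2 ≤ 5 := by
  have h2 := (inv_runG pk vl f hg hv hTp hTh t).hi
  have h3 := hTp (runG pk vl f t).1
  linarith

lemma exists_muR (n : ℕ) (lam : Finset (Fin n) → ℝ) :
    ∃ μ : ℕ, 4 * BR n lam < ThR n lam (μ * Real.log 2) := by
  have hc := c0_pos n lam
  have hl : 0 < Real.log 2 := Real.log_pos (by norm_num)
  obtain ⟨μ, hμ⟩ := exists_nat_gt ((4 * BR n lam + c0 n lam) / (c0 n lam * Real.log 2))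
  refine ⟨μ, ?_⟩
  rw [div_lt_iff₀ (by positivity)] at hμ
  unfold ThR
  have := Real.add_one_le_exp (c0 n lam * (μ * Real.log 2 - 1))
  nlinarith

end runs

end Pool.Agent.HX6.KPR
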