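import Mathlib
import Pool.Agent.HX6.KPR.Run

/-!
Computable approximate maximum and comparison for exponents which are computable real numbers.
-/

set_option autoImplicit false
open Finset

namespace Pool.Agent.HX6.KPR

open Pool.Agent.Helper981.KP

/-- the fixed enumeration of the index sets -/
noncomputable def enumL (n : ℕ) : List (Finset (Fin n)) := (Finset.univ : Finset (Finset (Fin n))).toList

lemma mem_enumL (n : ℕ) (S : Finset (Fin n)) : S ∈ enumL n := by
  unfold enumL; simp

open Classical in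
/-- the exponents given by a list -/
noncomputable def lpL (n : ℕ) (L : List ℕ) (S : Finset (Fin n)) : ℕ := L.getD ((enumL n).idxOf S) 0

open Classical in
lemma lpL_map (n : ℕ) (F : Finset (Fin n) → ℕ) (S : Finset (Fin n)) :
    lpL n ((enumL n).map F) S = F S := by
  unfold lpL
  have hlt := List.idxOf_lt_length_of_mem (mem_enumL n S)
  rw [List.getD_eq_getElem _ _ (by simpa using hlt), List.getElem_map, List.getElem_idxOf]

theorem primrec_finset_sum {α ι : Type*} [Primcodable α] (JJ : Finset ι) (F : ι → α → ℕ)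
    (hF : ∀ i, Primrec (F i)) : Primrec (fun a => ∑ i ∈ JJ, F i a) := by
  classical
  induction JJ using Finset.induction_on with
  | empty => simpa using Primrec.const 0
  | insert i JJ hi ih =>
    simp only [Finset.sum_insert hi]
    exact Primrec.nat_add.comp (hF i) ih

theorem primrec_lpL (n : ℕ) (S : Finset (Fin n)) : Primrec (fun L : List ℕ => lpL n L S) := by
  unfold lpL
  exact (Primrec.list_getD 0).comp Primrec.id (Primrec.const _)

theorem primrec_numL (n : ℕ) :
    Primrec (fun a : (List ℕ × List ℕ) × (List (ℕ × ℕ) × ℕ) =>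
      num n (lpL n a.1.1) (lpL n a.1.2) a.2.1 a.2.2) := by
  unfold num
  have hs : Primrec (fun a : (List ℕ × List ℕ) × (List (ℕ × ℕ) × ℕ) => a.2.1) :=
    Primrec.fst.comp Primrec.snd
  have hz : Primrec (fun a : (List ℕ × List ℕ) × (List (ℕ × ℕ) × ℕ) => a.2.2) :=
    Primrec.snd.comp Primrec.snd
  have h1 : Primrec (fun a : (List ℕ × List ℕ) × (List (ℕ × ℕ) × ℕ) => a.1.1) :=
    Primrec.fst.comp Primrec.fst
  have h2 : Primrec (fun a : (List ℕ × List ℕ) × (List (ℕ × ℕ) × ℕ) => a.1.2) :=
    Primrec.snd.comp Primrec.fst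
  refine Primrec.nat_mul.comp ?_ ?_
  · refine primrec_finset_prod Finset.univ
      (fun S (a : (List ℕ × List ℕ) × (List (ℕ × ℕ) × ℕ)) =>
        (Wt n S a.2.1 (lab n S a.2.2))^(lpL n a.1.1 S)) fun S => ?_
    exact primrec_pow.comp ((primrec_Wt n S).comp hs ((primrec_lab n S).comp hz))
      ((primrec_lpL n S).comp h1)
  · refine primrec_pow.comp (Primrec.const 2) ?_
    refine Primrec.nat_mul.comp (primrec_Ex.comp hs) ?_
    exact primrec_finset_sum Finset.univ
      (fun S (a : (List ℕ × List ℕ) × (List (ℕ × ℕ) × ℕ)) => lpL n a.1.2 S)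
      fun S => (primrec_lpL n S).comp h2

theorem primrec_swapL :
    Primrec (fun a : (List ℕ × List ℕ) × (List (ℕ × ℕ) × ℕ) => ((a.1.2, a.1.1), a.2)) :=
  Primrec.pair (Primrec.pair (Primrec.snd.comp Primrec.fst) (Primrec.fst.comp Primrec.fst))
      Primrec.snd

theorem primrec_denL (n : ℕ) :
    Primrec (fun a : (List ℕ × List ℕ) × (List (ℕ × ℕ) × ℕ) =>
      den n (lpL n a.1.1) (lpL n a.1.2) a.2.1 a.2.2) := by
  have h := (primrec_numL n).comp primrec_swapL
  refine h.of_eq fun a => ?_
  rfl

theorem primrec_pick_gen {A : Type*} [Primcodable A] {N D : A → ℕ → ℕ} (hN : Primrec₂ N)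
    (hD : Primrec₂ D) {L : A → List (ℕ × ℕ)} (hL : Primrec L) :
    Primrec (fun a => (L a).foldl
      (fun b q => if N a b.1 * D a q.1 < N a q.1 * D a b.1 then q else b) (L a).headI) := by
  have pa : Primrec (fun x : A × ((ℕ × ℕ) × (ℕ × ℕ)) => x.1) := Primrec.fst
  have pb : Primrec (fun x : A × ((ℕ × ℕ) × (ℕ × ℕ)) => x.2.1.1) :=
    Primrec.fst.comp (Primrec.fst.comp Primrec.snd)
  have pq : Primrec (fun x : A × ((ℕ × ℕ) × (ℕ × ℕ)) => x.2.2.1) :=
    Primrec.fst.comp (Primrec.snd.comp Primrec.snd)
  refine Primrec.list_foldl (f := fun a : A => L a)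
    (g := fun a : A => (L a).headI)
    (h := fun a bq => if N a bq.1.1 * D a bq.2.1 < N a bq.2.1 * D a bq.1.1 then bq.2 else bq.1)
    hL (Primrec.list_headI.comp hL) ?_
  refine Primrec.ite ?_ (Primrec.snd.comp Primrec.snd) (Primrec.fst.comp Primrec.snd)
  exact Primrec.nat_lt.comp
    (Primrec.nat_mul.comp (hN.comp pa pb) (hD.comp pa pq))
    (Primrec.nat_mul.comp (hN.comp pa pq) (hD.comp pa pb))

theorem primrec_reL :
    Primrec (fun x : ((List ℕ × List ℕ) × List (ℕ × ℕ)) × ℕ => (x.1.1, (x.1.2, x.2))) :=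
  Primrec.pair (Primrec.fst.comp Primrec.fst)
    (Primrec.pair (Primrec.snd.comp Primrec.fst) Primrec.snd)

theorem primrec_reL_gen {M : (List ℕ × List ℕ) → (List (ℕ × ℕ) × ℕ) → ℕ}
    (h : Primrec (fun a : (List ℕ × List ℕ) × (List (ℕ × ℕ) × ℕ) => M a.1 a.2)) :
    Primrec₂ (fun (a : (List ℕ × List ℕ) × List (ℕ × ℕ)) (z : ℕ) => M a.1 (a.2, z)) :=
  h.comp primrec_reL

/-- numerator with the exponents given by lists -/
noncomputable def numL (n : ℕ) (a : List ℕ × List ℕ) (b : List (ℕ × ℕ) × ℕ) : ℕ :=
  num n (lpL n a.1) (lpL n a.2) b.1 b.2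

/-- denominator with the exponents given by lists -/
noncomputable def denL (n : ℕ) (a : List ℕ × List ℕ) (b : List (ℕ × ℕ) × ℕ) : ℕ :=
  den n (lpL n a.1) (lpL n a.2) b.1 b.2

theorem primrec_pickL (n : ℕ) :
    Primrec (fun a : (List ℕ × List ℕ) × List (ℕ × ℕ) =>
      pick n (lpL n a.1.1) (lpL n a.1.2) a.2) := by
  have hn0 : Primrec (fun a : (List ℕ × List ℕ) × (List (ℕ × ℕ) × ℕ) => numL n a.1 a.2) :=
    primrec_numL n
  have hd0 : Primrec (fun a : (List ℕ × List ℕ) × (List (ℕ × ℕ) × ℕ) => denL n a.1 a.2) :=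
    primrec_denL n
  have hn := primrec_reL_gen hn0
  have hd := primrec_reL_gen hd0
  have h := primrec_pick_gen hn hd
    (L := fun a : (List ℕ × List ℕ) × List (ℕ × ℕ) => a.2) Primrec.snd
  refine h.of_eq fun a => ?_
  unfold pick numL denL
  rfl

/-- the precision used at the state `s` -/
def prec (n : ℕ) (s : List (ℕ × ℕ)) : ℕ := Fintype.card (Finset (Fin n)) * (Ex s + s.length)

theorem primrec_prec (n : ℕ) : Primrec (prec n) := by
  unfold prec
  exact Primrec.nat_mul.comp (Primrec.const _) (Primrec.nat_add.comp primrec_Ex Primrec.list_length)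

section
variable (n : ℕ) (F G : Finset (Fin n) → ℕ → ℕ) (μ : ℕ)

/-- approximate maximum -/
noncomputable def pkA (s : List (ℕ × ℕ)) : ℕ × ℕ :=
  pick n (fun S => F S (prec n s)) (fun S => G S (prec n s)) s

/-- approximate comparison -/
noncomputable def vlA (s : List (ℕ × ℕ)) : Bool :=
  decide (2^(μ * (prec n s + 1)) *
      den n (fun S => F S (prec n s)) (fun S => G S (prec n s)) s (pkA n F G s).1 <
    num n (fun S => F S (prec n s)) (fun S => G S (prec n s)) s (pkA n F G s).1)

theorem computable_list_fix {α : Type*} [Primcodable α] {ι : Type*} (L : List ι) (H : ι → α → ℕ)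
    (hH : ∀ i, Computable (H i)) : Computable (fun a => L.map (fun i => H i a)) := by
  induction L with
  | nil => simpa using Computable.const []
  | cons i L ih =>
    simp only [List.map_cons]
    exact Computable.list_cons.comp (hH i) ih

theorem computable_E (hF : ∀ S, Computable (F S)) :
    Computable (fun s : List (ℕ × ℕ) => (enumL n).map (fun S => F S (prec n s))) :=
  computable_list_fix (enumL n) (fun S (s : List (ℕ × ℕ)) => F S (prec n s))
    fun S => (hF S).comp (primrec_prec n).to_comp

theorem computable_pkA (hF : ∀ S, Computable (F S)) (hG : ∀ S, Computable (G S)) :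
    Computable (pkA n F G) := by
  have hin : Computable (fun s : List (ℕ × ℕ) => ((((enumL n).map (fun S => F S (prec n s)),
      (enumL n).map (fun S => G S (prec n s))), s) : (List ℕ × List ℕ) × List (ℕ × ℕ))) :=
    Computable.pair (Computable.pair (computable_E n F hF) (computable_E n G hG)) Computable.id
  have h := (primrec_pickL n).to_comp.comp hin
  refine h.of_eq fun s => ?_
  unfold pkA
  simp only
  congr 1
  · funext S; exact lpL_map n _ S
  · funext S; exact lpL_map n _ S

theorem computable_vlA (hF : ∀ S, Computable (F S)) (hG : ∀ S, Computable (G S)) :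
    Computable (vlA n F G μ) := by
  have hp := computable_pkA n F G hF hG
  have hin : Computable (fun s : List (ℕ × ℕ) => ((((enumL n).map (fun S => F S (prec n s)),
      (enumL n).map (fun S => G S (prec n s))), (s, (pkA n F G s).1)) :
        (List ℕ × List ℕ) × (List (ℕ × ℕ) × ℕ))) :=
    Computable.pair (Computable.pair (computable_E n F hF) (computable_E n G hG))
      (Computable.pair Computable.id (Computable.fst.comp hp))
  have h1 := (primrec_numL n).to_comp.comp hin
  have h2 := (primrec_denL n).to_comp.comp hin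
  have h3 : Computable (fun s : List (ℕ × ℕ) => 2^(μ * (prec n s + 1))) :=
    (primrec_pow.to_comp).comp (Computable.const 2)
      ((Primrec.nat_mul.to_comp).comp (Computable.const μ)
        (Computable.succ.comp (primrec_prec n).to_comp))
  have h := (Primrec.nat_lt.decide.to_comp).comp ((Primrec.nat_mul.to_comp).comp h3 h2) h1
  refine h.of_eq fun s => ?_
  unfold vlA
  have e1 : lpL n ((enumL n).map (fun S => F S (prec n s))) = fun S => F S (prec n s) := by
    funext S; exact lpL_map n _ S
  have e2 : lpL n ((enumL n).map (fun S => G S (prec n s))) = fun S => G S (prec n s) := by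
    funext S; exact lpL_map n _ S
  simp only [e1, e2]

theorem computable_stepG {pk : List (ℕ × ℕ) → ℕ × ℕ} {vl : List (ℕ × ℕ) → Bool}
    (hpk : Computable pk) (hvl : Computable vl) {f : ℕ → ℕ → ℕ} (hf : Computable₂ f) :
    Computable (stepG pk vl f) := by
  have hA : Computable (fun σ : ℕ × List (ℕ × ℕ) => (σ.1, pk σ.2 :: σ.2)) :=
    Computable.pair Computable.fst (Computable.list_cons.comp (hpk.comp Computable.snd)
      Computable.snd)
  have hB : Computable (fun σ : ℕ × List (ℕ × ℕ) => (σ.1 + 1, inp f σ.1 ++ σ.2)) :=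
    Computable.pair (Computable.succ.comp Computable.fst)
      ((Primrec.list_append.to_comp).comp ((computable_inp hf).comp Computable.fst) Computable.snd)
  exact Computable.cond (hvl.comp Computable.snd) hA hB

theorem computable_runG {pk : List (ℕ × ℕ) → ℕ × ℕ} {vl : List (ℕ × ℕ) → Bool}
    (hpk : Computable pk) (hvl : Computable vl) {f : ℕ → ℕ → ℕ} (hf : Computable₂ f) :
    Computable (runG pk vl f) := by
  unfold runG
  exact Computable.nat_rec (f := fun t : ℕ => t) (g := fun _ => (0, [(0, 0)]))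
    (h := fun _ p => stepG pk vl f p.2) Computable.id (Computable.const _)
    ((computable_stepG hpk hvl hf).comp (Computable.snd.comp Computable.snd)).to₂

lemma tot_le_length (s : List (ℕ × ℕ)) : tot s ≤ s.length := by
  induction s with
  | nil => simp [tot]
  | cons q s ih =>
    rw [tot_cons, List.length_cons]
    push_cast
    linarith [half_pow_le_one q.2]

lemma abs_log_le {s : List (ℕ × ℕ)} {q : ℕ × ℕ} (hq : q ∈ s) (S : Finset (Fin n)) :
    |Real.log (mS (lab n) s S (lab n S q.1))| ≤ (Ex s + s.length : ℝ) := by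
  have h1 := le_mS_of_mem (lab n) s S q hq
  have hpos := mS_pos_of_mem (lab n) s S q hq
  have h2 := (mS_le_tot (lab n) s S (lab n S q.1)).trans (tot_le_length s)
  have h3 : -(Ex s : ℝ) ≤ Real.log (mS (lab n) s S (lab n S q.1)) := by
    have h4 : (1/2 : ℝ)^(Ex s) ≤ (1/2 : ℝ)^q.2 :=
      pow_le_pow_of_le_one (by norm_num) (by norm_num) (le_Ex hq)
    have h5 := Real.log_le_log (by positivity) (h4.trans h1)
    rw [Real.log_pow, one_div, Real.log_inv] at h5
    have h6 : Real.log 2 ≤ 1 := by
      have := Real.log_two_lt_d9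
      linarith
    have h7 : (0:ℝ) ≤ Ex s := Nat.cast_nonneg _
    nlinarith
  have h8 : Real.log (mS (lab n) s S (lab n S q.1)) ≤ s.length := by
    have := Real.log_le_sub_one_of_pos hpos
    linarith
  have h9 : (0:ℝ) ≤ Ex s := Nat.cast_nonneg _
  have h10 : (0:ℝ) ≤ s.length := Nat.cast_nonneg _
  exact abs_le.2 ⟨by linarith, by linarith⟩

theorem good_A (lam : Finset (Fin n) → ℝ)
    (hap : ∀ S (k : ℕ), |lam S * ((k : ℝ) + 1) - ((F S k : ℝ) - G S k)| ≤ 1) :
    Good n lam (μ * Real.log 2) (pkA n F G) (vlA n F G μ) := by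
  have key : ∀ (s : List (ℕ × ℕ)) (q : ℕ × ℕ), q ∈ s →
      |kap n (fun S => F S (prec n s)) (fun S => G S (prec n s)) s q.1 -
        ((prec n s : ℝ) + 1) * kapR n lam s q.1| ≤ (prec n s : ℝ) + 1 := by
    intro s q hq
    unfold kap kapR
    rw [Finset.mul_sum, ← Finset.sum_sub_distrib]
    refine (Finset.abs_sum_le_sum_abs _ _).trans ?_
    have h1 : ∀ S ∈ (Finset.univ : Finset (Finset (Fin n))),
        |((F S (prec n s) : ℝ) - G S (prec n s)) * Real.log (mS (lab n) s S (lab n S q.1)) -
          ((prec n s : ℝ) + 1) * (lam S * Real.log (mS (lab n) s S (lab n S q.1)))| ≤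
        (Ex s + s.length : ℝ) := by
      intro S _
      have e : ((F S (prec n s) : ℝ) - G S (prec n s)) * Real.log (mS (lab n) s S (lab n S q.1)) -
          ((prec n s : ℝ) + 1) * (lam S * Real.log (mS (lab n) s S (lab n S q.1))) =
          -((lam S * ((prec n s : ℝ) + 1) - ((F S (prec n s) : ℝ) - G S (prec n s))) *
            Real.log (mS (lab n) s S (lab n S q.1))) := by ring
      rw [e, abs_neg, abs_mul]
      have h2 := hap S (prec n s)
      have h3 := abs_log_le n hq S
      exact (mul_le_mul_of_nonneg_right h2 (abs_nonneg _)).trans (by rw [one_mul]; exact h3)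
    refine (Finset.sum_le_sum h1).trans ?_
    rw [Finset.sum_const, Finset.card_univ, nsmul_eq_mul]
    unfold prec
    push_cast
    linarith
  have hN : ∀ s : List (ℕ × ℕ), (0:ℝ) < (prec n s : ℝ) + 1 := fun s => by positivity
  refine ⟨fun s hs => (pick_spec n _ _ hs).1, fun s hs q hq => ?_, fun s hs hv => ?_,
    fun s hs hv => ?_⟩
  · obtain ⟨hmem, hmax⟩ := pick_spec n (fun S => F S (prec n s)) (fun S => G S (prec n s)) hs
    have h1 := hmax q hq
    have h2 := (abs_le.1 (key s q hq)).1
    have h3 := (abs_le.1 (key s _ hmem)).2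
    have h4 : ((prec n s : ℝ) + 1) * kapR n lam s q.1 ≤
        ((prec n s : ℝ) + 1) * (kapR n lam s (pkA n F G s).1 + 2) := by
      change _ ≤ ((prec n s : ℝ) + 1) * (kapR n lam s (pick n _ _ s).1 + 2)
      linarith
    exact le_of_mul_le_mul_left h4 (hN s)
  · obtain ⟨hmem, -⟩ := pick_spec n (fun S => F S (prec n s)) (fun S => G S (prec n s)) hs
    have h1 := of_decide_eq_true hv
    have h2 := (viol_iff n _ _ hmem (μ * (prec n s + 1))).1 h1
    have h3 := (abs_le.1 (key s _ hmem)).2
    push_cast at h2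
    have h4 : ((prec n s : ℝ) + 1) * (μ * Real.log 2 - 1) ≤
        ((prec n s : ℝ) + 1) * kapR n lam s (pkA n F G s).1 := by
      change _ ≤ ((prec n s : ℝ) + 1) * kapR n lam s (pick n _ _ s).1
      linarith
    exact le_of_mul_le_mul_left h4 (hN s)
  · obtain ⟨hmem, -⟩ := pick_spec n (fun S => F S (prec n s)) (fun S => G S (prec n s)) hs
    have h1 := of_decide_eq_false hv
    have h2 := not_lt.1 (fun h => h1 ((viol_iff n _ _ hmem (μ * (prec n s + 1))).2 h))
    have h3 := (abs_le.1 (key s _ hmem)).1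
    push_cast at h2
    have h4 : ((prec n s : ℝ) + 1) * kapR n lam s (pkA n F G s).1 ≤
        ((prec n s : ℝ) + 1) * (μ * Real.log 2 + 1) := by
      change ((prec n s : ℝ) + 1) * kapR n lam s (pick n _ _ s).1 ≤ _
      linarith
    exact le_of_mul_le_mul_left h4 (hN s)

end

end Pool.Agent.HX6.KPR
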