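import Mathlib
import Pool.Agent.HX6.KPR.Appr
import Pool.Agent.Helper981.KP.Final

/-!
Linear information inequalities with computable real coefficients for prefix complexity.
-/

set_option autoImplicit false
open Finset

namespace Pool.Agent.HX6.KPR

open Pool.Agent.Helper981.KP

section main
variable {K : ℕ → ℕ} (n : ℕ) {pk : List (ℕ × ℕ) → ℕ × ℕ} {vl : List (ℕ × ℕ) → Bool}
  (hpk : Computable pk) (hvl : Computable vl)
include hpk hvl

/-- the marginals of the constructed measure are at most `2^{-K}` up to a constant -/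
lemma marg_upperG (hK : IsKP K) {f : ℕ → ℕ → ℕ} (hf : Computable₂ f)
    (hfK : ∀ x, (∀ t, K x ≤ f x t) ∧ ∃ t, f x t = K x)
    (htot : ∀ t, tot (runG pk vl f t).2 ≤ 5) (S : Finset (Fin n)) :
    ∃ c : ℝ, 0 ≤ c ∧ ∀ t u, 0 < mS (lab n) (runG pk vl f t).2 S u →
      Real.log (mS (lab n) (runG pk vl f t).2 S u) ≤ -((K u : ℝ) - c) * Real.log 2 := by
  classical
  set g : ℕ → ℕ → ℕ := fun u t =>
    if 16 * 2^(Ex (runG pk vl f t.unpair.1).2) ≤ Wt n S (runG pk vl f t.unpair.1).2 u * 2^(t.unpair.2)
    then t.unpair.2 else f u t.unpair.1 + 1 with hg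
  have hgc : Computable₂ g := by
    have p1 : Computable (fun p : ℕ × ℕ => p.2.unpair.1) :=
      Computable.fst.comp (Computable.unpair.comp Computable.snd)
    have p2 : Computable (fun p : ℕ × ℕ => p.2.unpair.2) :=
      Computable.snd.comp (Computable.unpair.comp Computable.snd)
    have hr : Computable (fun p : ℕ × ℕ => (runG pk vl f p.2.unpair.1).2) :=
      Computable.snd.comp ((computable_runG hpk hvl hf).comp p1)
    have hA : Computable (fun p : ℕ × ℕ => 16 * 2^(Ex (runG pk vl f p.2.unpair.1).2)) :=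
      (Primrec.nat_mul.to_comp).comp (Computable.const 16)
        ((primrec_pow.to_comp).comp (Computable.const 2) (primrec_Ex.to_comp.comp hr))
    have hB : Computable (fun p : ℕ × ℕ => Wt n S (runG pk vl f p.2.unpair.1).2 p.1 *
        2^(p.2.unpair.2)) :=
      (Primrec.nat_mul.to_comp).comp ((primrec_Wt n S).to_comp.comp hr Computable.fst)
        ((primrec_pow.to_comp).comp (Computable.const 2) p2)
    have hc : Computable (fun p : ℕ × ℕ => decide (16 * 2^(Ex (runG pk vl f p.2.unpair.1).2) ≤
        Wt n S (runG pk vl f p.2.unpair.1).2 p.1 * 2^(p.2.unpair.2))) :=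
      (Primrec.nat_le.decide.to_comp).comp hA hB
    have := Computable.cond hc p2 (Computable.succ.comp (hf.comp Computable.fst p1))
    refine this.of_eq fun p => ?_
    simp only [hg]
    by_cases hp : 16 * 2^(Ex (runG pk vl f p.2.unpair.1).2) ≤
        Wt n S (runG pk vl f p.2.unpair.1).2 p.1 * 2^(p.2.unpair.2)
    · simp [hp]
    · simp [hp]
  have hcond : ∀ t k u, 16 * 2^(Ex (runG pk vl f t).2) ≤ Wt n S (runG pk vl f t).2 u * 2^k ↔
      16 * ((1:ℝ)/2)^k ≤ mS (lab n) (runG pk vl f t).2 S u := by
    intro t k u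
    have e : (16 * 2^(Ex (runG pk vl f t).2) ≤ Wt n S (runG pk vl f t).2 u * 2^k) ↔
        (16 * (2:ℝ)^(Ex (runG pk vl f t).2) ≤ Wt n S (runG pk vl f t).2 u * 2^k) := by
      constructor
      · intro h; exact_mod_cast h
      · intro h; exact_mod_cast h
    rw [e, Wt_cast]
    have hp : (0:ℝ) < 2^(Ex (runG pk vl f t).2) := by positivity
    have hk : (0:ℝ) < 2^k := by positivity
    have e2 : ((1:ℝ)/2)^k = 1 / 2^k := by rw [div_pow, one_pow]
    rw [e2, mul_one_div, div_le_iff₀ hk]
    constructor
    · intro h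
      have : 16 * (2:ℝ)^(Ex (runG pk vl f t).2) ≤
        (mS (lab n) (runG pk vl f t).2 S u * 2^k) * 2^(Ex (runG pk vl f t).2) := by linarith
      exact le_of_mul_le_mul_right this hp
    · intro h
      have := mul_le_mul_of_nonneg_right h hp.le
      linarith
  obtain ⟨c, hc⟩ := approx_le hK g hgc (by
    intro U τ
    set T := U.sup (fun u => (τ u).unpair.1) with hT
    have h1 : ∀ u ∈ U, ((1:ℝ)/2)^(g u (τ u)) ≤ (1/2) * (1/2)^(K u) +
        (1/16) * mS (lab n) (runG pk vl f T).2 S u := by
      intro u hu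
      have hle : (τ u).unpair.1 ≤ T := Finset.le_sup (f := fun u => (τ u).unpair.1) hu
      have hmono := mS_runG_mono pk vl f (lab n) hle S u
      simp only [hg]
      split_ifs with h2
      · rw [hcond] at h2
        have h3 : (0:ℝ) ≤ (1/2) * (1/2)^(K u) := by positivity
        linarith
      · have := half_pow_le ((hfK u).1 (τ u).unpair.1)
        have h3 := mS_nonneg (lab n) (runG pk vl f T).2 S u
        rw [pow_succ]
        linarith
    refine (Finset.sum_le_sum h1).trans ?_
    rw [Finset.sum_add_distrib, ← Finset.mul_sum, ← Finset.mul_sum]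
    have h4 := finite_of_kraft hK.2.1 U
    have h5 : ∑ u ∈ U, mS (lab n) (runG pk vl f T).2 S u ≤ 5 := by
      refine le_trans ?_ (htot T)
      unfold mS tot
      rw [← list_sum_finset_sum]
      apply List.sum_le_sum
      intro q _
      rw [Finset.sum_ite_eq]
      split_ifs
      · exact le_rfl
      · positivity
    linarith)
  have hl2 : 0 < Real.log 2 := Real.log_pos (by norm_num)
  refine ⟨c + 5, by positivity, ?_⟩
  intro t u hpos
  set M := mS (lab n) (runG pk vl f t).2 S u with hM
  have hM5 : M ≤ 5 := (mS_le_tot _ _ _ _).trans (htot t)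
  have hx : 1 ≤ 16 / M := by rw [le_div_iff₀ hpos]; linarith
  obtain ⟨k, hk1, hk2⟩ := exists_nat_pow_near hx (by norm_num : (1:ℝ) < 2)
  have h6 : 16 * ((1:ℝ)/2)^(k+1) ≤ M := by
    rw [div_lt_iff₀ hpos] at hk2
    have e2 : ((1:ℝ)/2)^(k+1) = 1 / 2^(k+1) := by rw [div_pow, one_pow]
    rw [e2, mul_one_div, div_le_iff₀ (by positivity)]
    linarith
  have h7 := hc u (Nat.pair t (k+1))
  have h8 : g u (Nat.pair t (k+1)) = k + 1 := by
    simp only [hg, Nat.unpair_pair]
    rw [if_pos ((hcond t (k+1) u).2 h6)]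
  rw [h8] at h7
  have h9 : (k:ℝ) * Real.log 2 ≤ Real.log 16 - Real.log M := by
    rw [← Real.log_pow, ← Real.log_div (by norm_num) hpos.ne']
    exact Real.log_le_log (by positivity) hk1
  have h10 : Real.log 16 = 4 * Real.log 2 := by
    rw [show (16:ℝ) = 2^4 by norm_num, Real.log_pow]; norm_num
  have h11 : (K u : ℝ) ≤ k + 1 + c := by exact_mod_cast h7
  nlinarith


theorem main_real (lam : Finset (Fin n) → ℝ) (μ : ℕ) (hK : IsKP K)
    (hg : Good n lam (μ * Real.log 2) pk vl) (hv : ValidR n lam)
    (hTh : 4 * BR n lam < ThR n lam (μ * Real.log 2)) : ∃ c : ℝ, ∀ x : Fin n → ℕ,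
    -c ≤ ∑ S, lam S * (K (sub n S x) : ℝ) := by
  classical
  obtain ⟨f, hf, hfK⟩ := hK.1
  have hTp : ∀ j, Tp f j ≤ 3 := by
    intro j
    have := sum_inp_le (f := f) (K := K) (fun x t => (hfK x).1 t)
      (fun N => finite_of_kraft hK.2.1 _) j
    unfold Tp
    linarith
  have htot := tot_runG_le pk vl f hg hv hTp hTh
  have hup := fun S => marg_upperG n hpk hvl hK hf hfK htot S
  choose c1 hc10 hc1 using hup
  have hext := fun S : Finset (Fin n) => comp_le hK (ext n S) (primrec_ext n S).to_comp
  choose c2 hc2 using hext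
  have hl2 : 0 < Real.log 2 := Real.log_pos (by norm_num)
  refine ⟨μ + 3 / Real.log 2 + ∑ S, (max (lam S) 0 * c2 S + max (-lam S) 0 * c1 S), fun x => ?_⟩
  -- the quanta needed
  obtain ⟨i0, hi0⟩ := exists_input (f := f) (K := K) (fun x t => (hfK x).1 t)
    (fun x => (hfK x).2) (full n x)
  have hin := fun S : Finset (Fin n) => exists_input (f := f) (K := K) (fun x t => (hfK x).1 t)
    (fun x => (hfK x).2) (ext n S (sub n S x))
  choose iS hiS using hin
  obtain ⟨t0, ht0⟩ := exists_fst_geG pk vl f hg hv hTp hTh (i0 + (∑ S, iS S) + 1)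
  obtain ⟨t, ht, hst⟩ := exists_stableG pk vl f hg hv hTp hTh t0
  have hfst := ht0.trans (fst_monoG pk vl f ht)
  have hmem0 : (full n x, K (full n x)) ∈ (runG pk vl f t).2 :=
    inp_mem_runG pk vl f t i0 (by omega) _ hi0
  have hmemS : ∀ S, (ext n S (sub n S x), K (ext n S (sub n S x))) ∈ (runG pk vl f t).2 := by
    intro S
    refine inp_mem_runG pk vl f t (iS S) ?_ _ (hiS S)
    have := Finset.single_le_sum (f := iS) (fun i _ => Nat.zero_le _) (Finset.mem_univ S)
    omega
  have hne := List.ne_nil_of_mem hmem0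
  have hkap : kapR n lam (runG pk vl f t).2 (full n x) ≤ μ * Real.log 2 + 3 := by
    have h1 := hg.max _ hne _ hmem0
    have h2 := hg.nviol _ hne hst
    simp only at h1
    linarith
  unfold kapR at hkap
  simp only [lab_full] at hkap
  have hlow : ∀ S, -((K (sub n S x) : ℝ) + c2 S) * Real.log 2 ≤
      Real.log (mS (lab n) (runG pk vl f t).2 S (sub n S x)) := by
    intro S
    have h1 := le_mS_of_mem (lab n) (runG pk vl f t).2 S _ (hmemS S)
    simp only [lab_ext] at h1
    have h2 := half_pow_le (hc2 S (sub n S x))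
    have h3 := Real.log_le_log (by positivity) (h2.trans h1)
    rw [Real.log_pow, one_div, Real.log_inv] at h3
    push_cast at h3
    linarith
  have hhigh : ∀ S, Real.log (mS (lab n) (runG pk vl f t).2 S (sub n S x)) ≤
      -((K (sub n S x) : ℝ) - c1 S) * Real.log 2 := by
    intro S
    refine hc1 S t _ ?_
    have := mS_pos_of_mem (lab n) (runG pk vl f t).2 S _ hmem0
    simpa only [lab_full] using this
  have hterm : ∀ S, -(lam S * (K (sub n S x) : ℝ) + (max (lam S) 0 * c2 S +
      max (-lam S) 0 * c1 S)) * Real.log 2 ≤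
      lam S * Real.log (mS (lab n) (runG pk vl f t).2 S (sub n S x)) := by
    intro S
    have h1 := mul_le_mul_of_nonneg_left (hlow S) (le_max_right (lam S) 0)
    have h2 := mul_le_mul_of_nonneg_left (hhigh S) (le_max_right (-lam S) 0)
    have h3 : max (lam S) 0 - max (-lam S) 0 = lam S := by
      rcases le_total 0 (lam S) with h | h
      · rw [max_eq_left h, max_eq_right (by linarith)]; ring
      · rw [max_eq_right h, max_eq_left (by linarith)]; ring
    have h4 : lam S * (K (sub n S x) : ℝ) =
        max (lam S) 0 * (K (sub n S x) : ℝ) - max (-lam S) 0 * (K (sub n S x) : ℝ) := by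
      rw [← sub_mul, h3]
    have h5 : lam S * Real.log (mS (lab n) (runG pk vl f t).2 S (sub n S x)) =
        max (lam S) 0 * Real.log (mS (lab n) (runG pk vl f t).2 S (sub n S x)) -
        max (-lam S) 0 * Real.log (mS (lab n) (runG pk vl f t).2 S (sub n S x)) := by
      rw [← sub_mul, h3]
    rw [h4, h5]
    linarith
  have hsum := Finset.sum_le_sum (s := Finset.univ) fun S _ => hterm S
  rw [← Finset.sum_mul, Finset.sum_neg_distrib, Finset.sum_add_distrib] at hsum
  have hfin := hsum.trans hkap
  have h6 : (μ : ℝ) * Real.log 2 + 3 = (μ + 3 / Real.log 2) * Real.log 2 := by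
    rw [add_mul, div_mul_cancel₀ _ hl2.ne']
  rw [h6] at hfin
  have := le_of_mul_le_mul_right hfin hl2
  linarith

end main

/-- a real number which is computable: `a (k+1)` is within distance one of an integer computed
from `k` -/
def CompReal (a : ℝ) : Prop :=
  ∃ f g : ℕ → ℕ, Computable f ∧ Computable g ∧
    ∀ k : ℕ, |a * ((k : ℝ) + 1) - ((f k : ℝ) - g k)| ≤ 1

theorem validR_of_infoIneq (n : ℕ) (lam : Finset (Fin n) → ℝ) (h : InfoIneq n lam) :
    ValidR n lam := by
  classical
  intro N z Q hQ hQ1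
  set X : Fin N → Fin n → ℕ := fun ω i => (Denumerable.ofNat (List ℕ) (z ω)).getD i.val 0 with hX
  set m : ℕ := ∑ ω, ∑ i, X ω i with hm
  have hlt : ∀ ω i, X ω i < m + 1 := by
    intro ω i
    have h1 : X ω i ≤ ∑ i, X ω i := Finset.single_le_sum (f := fun i => X ω i)
      (fun _ _ => Nat.zero_le _) (Finset.mem_univ i)
    have h2 : ∑ i, X ω i ≤ m := Finset.single_le_sum (f := fun ω => ∑ i, X ω i)
      (fun _ _ => Nat.zero_le _) (Finset.mem_univ ω)
    omega
  set Y : Fin N → Fin n → Fin (m+1) := fun ω i => ⟨X ω i, hlt ω i⟩ with hY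
  have hh := h m (fun v => ∑ ω, if Y ω = v then Q ω else 0)
    (fun v => Finset.sum_nonneg fun ω _ => by
      have := (hQ ω).le
      split_ifs <;> simp [this])
    (by
      rw [Finset.sum_comm]
      simp only [Finset.sum_ite_eq, Finset.mem_univ, if_true]
      exact hQ1)
  refine le_of_le_of_eq hh ?_
  refine Finset.sum_congr rfl fun S _ => ?_
  congr 1
  exact ent_push Q Y S (fun i => lab n S (z i)) (by
    intro ω ω'
    rw [lab_eq_iff]
    simp only [hY, hX, Fin.mk.injEq])

/-- computable real coefficients -/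
theorem main_comp_coeff {K : ℕ → ℕ} (hK : IsKP K) (n : ℕ) (lam : Finset (Fin n) → ℝ)
    (hc : ∀ S, CompReal (lam S)) (h : InfoIneq n lam) : ∃ c : ℝ, ∀ x : Fin n → ℕ,
    -c ≤ ∑ S, lam S * (K (sub n S x) : ℝ) := by
  choose F G hF hG hap using hc
  obtain ⟨μ, hμ⟩ := exists_muR n lam
  exact main_real n (computable_pkA n F G hF hG) (computable_vlA n F G μ hF hG) lam μ hK
    (good_A n F G μ lam hap) (validR_of_infoIneq n lam h) hμ

section
variable {U : List Bool →. List Bool} (hU : OptimalPF U)
  (enc : List (List Bool) → List Bool) (henc : Computable enc) (hinj : Function.Injective enc)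
include hU henc hinj

/-- linear information inequalities with computable real coefficients, for tuples of strings -/
theorem comp_machine (n : ℕ) (lam : Finset (Fin n) → ℝ) (hc : ∀ S, CompReal (lam S))
    (h : InfoIneq n lam) : ∃ c : ℝ, ∀ x : Fin n → List Bool,
    -c ≤ ∑ S, lam S *
      (KPof U (enc (((List.finRange n).filter (fun i => decide (i ∈ S))).map x)) : ℝ) := by
  obtain ⟨c0, hc0⟩ := main_comp_coeff (isKP_of_optimal hU) n lam hc h
  obtain ⟨c1, hc1⟩ := enc_equiv hU enc henc hinj
  refine ⟨c0 + ∑ S, |lam S| * c1, fun x => ?_⟩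
  have h0 := hc0 (fun i => Encodable.encode (x i))
  have e : ∀ S : Finset (Fin n), sub n S (fun i => Encodable.encode (x i)) =
      cl (((List.finRange n).filter (fun i => decide (i ∈ S))).map x) := by
    intro S
    unfold sub cl
    rw [List.map_map]
    rfl
  simp only [e] at h0
  have hterm : ∀ S : Finset (Fin n), lam S *
      (KPof U (ones (cl (((List.finRange n).filter (fun i => decide (i ∈ S))).map x))) : ℝ)
        - |lam S| * c1 ≤ lam S *
      (KPof U (enc (((List.finRange n).filter (fun i => decide (i ∈ S))).map x)) : ℝ) := by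
    intro S
    obtain ⟨a1, a2⟩ := hc1 (((List.finRange n).filter (fun i => decide (i ∈ S))).map x)
    set A := KPof U (enc (((List.finRange n).filter (fun i => decide (i ∈ S))).map x))
    set B := KPof U (ones (cl (((List.finRange n).filter (fun i => decide (i ∈ S))).map x)))
    have b1 : (A : ℝ) ≤ B + c1 := by exact_mod_cast a1
    have b2 : (B : ℝ) ≤ A + c1 := by exact_mod_cast a2
    have habs : |(B : ℝ) - A| ≤ c1 := abs_le.2 ⟨by linarith, by linarith⟩
    have h3 : lam S * ((B : ℝ) - A) ≤ |lam S| * c1 :=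
      (le_abs_self _).trans (by rw [abs_mul]; exact mul_le_mul_of_nonneg_left habs (abs_nonneg _))
    linarith
  have hsum := Finset.sum_le_sum (s := Finset.univ) fun S _ => hterm S
  rw [Finset.sum_sub_distrib] at hsum
  linarith

end

end Pool.Agent.HX6.KPR
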